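import Mathlib
import Pool.Agent.X7.CPMBound

set_option autoImplicit false
set_option maxHeartbeats 4000000

namespace Pool.Agent.Results.MP_bd8ab5_nt.RecognitionDecidable

open Pool.Agent.X7.CPM

/-- `P(a,b,c,d) = {x ∈ ℤ : ax mod b ≤ cx - d}`. -/
def P (a b c d : ℕ) : Set ℤ := {x | ((a : ℤ) * x) % b ≤ c * x - d}

/-- `S` is contracted proportionally modular: `S = P(a,b,c,d) ∪ {0}` for some nonnegative integers
`a, b, c, d` with `b ≠ 0 ≠ c`. -/
def IsCPM (S : Set ℕ) : Prop :=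
  ∃ a b c d : ℕ, b ≠ 0 ∧ c ≠ 0 ∧ ((fun n : ℕ => (n : ℤ)) '' S) = P a b c d ∪ {0}

/-- The submonoid of `ℕ` generated by the entries of a list. -/
def gen (l : List ℕ) : Set ℕ := (AddSubmonoid.closure {x : ℕ | x ∈ l} : Set ℕ)

/-- A legal input: a finite list of positive integers with greatest common divisor `1`. -/
def Legal (l : List ℕ) : Prop := (∀ x ∈ l, 0 < x) ∧ l.foldr Nat.gcd 0 = 1

/-! ### Elementary facts -/

lemma dvd_foldr (l : List ℕ) (k : ℕ) : k ∣ l.foldr Nat.gcd 0 ↔ ∀ x ∈ l, k ∣ x := by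
  induction l with
  | nil => simp
  | cons a l ih => simp [Nat.dvd_gcd_iff, ih]

def Legal' (l : List ℕ) : Prop :=
  (∀ x ∈ l, 0 < x) ∧ l ≠ [] ∧ ∀ k < l.sum + 1, (¬ ∀ x ∈ l, x % k = 0) ∨ k = 1

lemma legal_iff (l : List ℕ) : Legal l ↔ Legal' l := by
  constructor
  · rintro ⟨h1, h2⟩
    refine ⟨h1, ?_, ?_⟩
    · rintro rfl; simp at h2
    · intro k _
      by_cases h3 : ∀ x ∈ l, x % k = 0
      · right
        have h4 : k ∣ l.foldr Nat.gcd 0 := (dvd_foldr l k).2 fun x hx => Nat.dvd_of_mod_eq_zero (h3 x hx)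
        rw [h2] at h4
        exact Nat.dvd_one.1 h4
      · left; exact h3
  · rintro ⟨h1, h2, h3⟩
    refine ⟨h1, ?_⟩
    obtain ⟨a, ha⟩ : ∃ a, a ∈ l := List.exists_mem_of_ne_nil l h2
    have h5 : l.foldr Nat.gcd 0 ∣ a := (dvd_foldr l _).1 dvd_rfl a ha
    have h6 : l.foldr Nat.gcd 0 ≤ a := Nat.le_of_dvd (h1 a ha) h5
    have h7 : a ≤ l.sum := List.le_sum_of_mem ha
    rcases h3 (l.foldr Nat.gcd 0) (by omega) with h8 | h8
    · exact absurd (fun x hx => Nat.mod_eq_zero_of_dvd ((dvd_foldr l _).1 dvd_rfl x hx)) h8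
    · exact h8

/-- all sums with coefficients at most `K` -/
def reach (K : ℕ) (l : List ℕ) : List ℕ :=
  l.foldr (fun a L => L.flatMap fun s => (List.range (K + 1)).map fun k => s + k * a) [0]

lemma mem_gen_cons (a : ℕ) (l : List ℕ) (y : ℕ) :
    y ∈ gen (a :: l) ↔ ∃ s ∈ gen l, ∃ k : ℕ, s + k * a = y := by
  unfold gen
  have h1 : {x : ℕ | x ∈ a :: l} = {x : ℕ | x ∈ l} ∪ {a} := by
    ext x; simp
  rw [h1, AddSubmonoid.closure_union, SetLike.mem_coe, AddSubmonoid.mem_sup]
  constructor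
  · rintro ⟨s, hs, t, ht, rfl⟩
    obtain ⟨k, rfl⟩ := AddSubmonoid.mem_closure_singleton.1 ht
    exact ⟨s, hs, k, by simp⟩
  · rintro ⟨s, hs, k, rfl⟩
    exact ⟨s, hs, k * a, AddSubmonoid.mem_closure_singleton.2 ⟨k, by simp⟩, rfl⟩

lemma reach_sub (K : ℕ) (l : List ℕ) (y : ℕ) (hy : y ∈ reach K l) : y ∈ gen l := by
  induction l generalizing y with
  | nil =>
    simp only [reach, List.foldr_nil, List.mem_singleton] at hy
    subst hy
    exact (AddSubmonoid.closure _).zero_mem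
  | cons a l ih =>
    simp only [reach, List.foldr_cons, List.mem_flatMap, List.mem_map, List.mem_range] at hy
    obtain ⟨s, hs, k, -, rfl⟩ := hy
    rw [mem_gen_cons]
    exact ⟨s, ih s hs, k, rfl⟩

lemma sub_reach (K : ℕ) (l : List ℕ) (hl : ∀ x ∈ l, 0 < x) (y : ℕ) (hyK : y ≤ K)
    (hy : y ∈ gen l) : y ∈ reach K l := by
  induction l generalizing y with
  | nil =>
    have h1 : {x : ℕ | x ∈ ([] : List ℕ)} = ∅ := by ext x; simp
    unfold gen at hy
    rw [h1, AddSubmonoid.closure_empty] at hy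
    simp only [reach, List.foldr_nil, List.mem_singleton]
    exact hy
  | cons a l ih =>
    rw [mem_gen_cons] at hy
    obtain ⟨s, hs, k, rfl⟩ := hy
    have ha : 0 < a := hl a (by simp)
    have hk : k ≤ k * a := Nat.le_mul_of_pos_right _ ha
    simp only [reach, List.foldr_cons, List.mem_flatMap, List.mem_map, List.mem_range]
    exact ⟨s, ih (fun x hx => hl x (by simp [hx])) s (by omega) hs, k, by omega, rfl⟩

def Win (l : List ℕ) (N : ℕ) : Prop := ∀ i < l.headI, N + i ∈ reach (N + i) l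

def Chk (l : List ℕ) (N a b c d : ℕ) : Prop :=
  b ≠ 0 ∧ c ≠ 0 ∧ (∀ x ∈ l, inP a b c d x) ∧ ∀ y < N, y = 0 ∨ ¬ inP a b c d y ∨ y ∈ reach y l

lemma win_all {l : List ℕ} (hl : ∀ x ∈ l, 0 < x) (hne : l ≠ []) {N : ℕ} (hN : Win l N) (y : ℕ)
    (hy : N ≤ y) : y ∈ gen l := by
  obtain ⟨a, t, rfl⟩ := List.exists_cons_of_ne_nil hne
  have ha : 0 < a := hl a (by simp)
  have haG : a ∈ gen (a :: t) := AddSubmonoid.subset_closure (by simp)
  have h1 : N + (y - N) % a ∈ gen (a :: t) :=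
    reach_sub _ _ _ (hN ((y - N) % a) (by simpa using Nat.mod_lt _ ha))
  have h2 : ((y - N) / a) • a ∈ AddSubmonoid.closure {x : ℕ | x ∈ a :: t} :=
    AddSubmonoid.nsmul_mem _ haG _
  have h3 := (AddSubmonoid.closure {x : ℕ | x ∈ a :: t}).add_mem h1 h2
  have h4 := Nat.mod_add_div (y - N) a
  have h5 : N + (y - N) % a + ((y - N) / a) • a = y := by
    rw [smul_eq_mul, mul_comm]; omega
  rw [h5] at h3
  exact h3

lemma exists_win {l : List ℕ} (h : Legal l) : ∃ N, Win l N := by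
  obtain ⟨n, hn⟩ := Nat.exists_mem_closure_of_ge {x : ℕ | x ∈ l}
  refine ⟨n, fun i _ => sub_reach _ _ h.1 _ le_rfl (hn (n + i) (by omega) ?_)⟩
  have h1 : Nat.setGcd {x : ℕ | x ∈ l} ∣ l.foldr Nat.gcd 0 :=
    (dvd_foldr l _).2 fun x hx => Nat.setGcd_dvd_of_mem hx
  rw [h.2] at h1
  exact h1.trans (one_dvd _)

lemma mem_P {a b c d x : ℕ} : (x : ℤ) ∈ P a b c d ↔ inP a b c d x := by
  unfold P inP
  rw [Set.mem_ofPred_eq]
  constructor
  · intro h
    zify
    linarith
  · intro h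
    zify at h
    linarith

lemma inP_add {a b c d x y : ℕ} (hx : inP a b c d x) (hy : inP a b c d y) :
    inP a b c d (x + y) := by
  unfold inP at *
  have h1 : (a * (x + y)) % b ≤ (a * x) % b + (a * y) % b := by
    rw [mul_add, Nat.add_mod]
    exact Nat.mod_le _ _
  nlinarith

lemma key {l : List ℕ} (h : Legal l) {N : ℕ} (hN : Win l N) :
    IsCPM (gen l) ↔ ∃ a b c d, Chk l N a b c d := by
  have hne : l ≠ [] := ((legal_iff l).1 h).2.1
  constructor
  · rintro ⟨a, b, c, d, hb, hc, heq⟩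
    have hmem : ∀ x : ℕ, x ∈ gen l ↔ (inP a b c d x ∨ x = 0) := by
      intro x
      have h1 : (x : ℤ) ∈ ((fun n : ℕ => (n : ℤ)) '' gen l) ↔ x ∈ gen l := by
        constructor
        · rintro ⟨y, hy, e⟩
          have : y = x := by simpa using e
          rwa [← this]
        · intro hx; exact ⟨x, hx, rfl⟩
      rw [← h1, heq, Set.mem_union, mem_P]
      simp
    refine ⟨a, b, c, d, hb, hc, ?_, ?_⟩
    · intro x hx
      have h1 : x ∈ gen l := AddSubmonoid.subset_closure hx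
      rcases (hmem x).1 h1 with h2 | h2
      · exact h2
      · have := h.1 x hx; omega
    · intro y _
      by_cases hy0 : y = 0
      · left; exact hy0
      · by_cases hyP : inP a b c d y
        · right; right
          exact sub_reach _ _ h.1 _ le_rfl ((hmem y).2 (Or.inl hyP))
        · right; left; exact hyP
  · rintro ⟨a, b, c, d, hb, hc, h1, h2⟩
    refine ⟨a, b, c, d, hb, hc, ?_⟩
    ext z
    constructor
    · rintro ⟨x, hx, rfl⟩
      have h3 : inP a b c d x ∨ x = 0 := by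
        refine AddSubmonoid.closure_induction (motive := fun x _ => inP a b c d x ∨ x = 0) ?_ ?_ ?_ hx
        · intro y hy; left; exact h1 y hy
        · right; rfl
        · rintro y z - - (hy | rfl) (hz | rfl)
          · left; exact inP_add hy hz
          · left; simpa using hy
          · left; simpa using hz
          · right; rfl
      rcases h3 with h3 | rfl
      · left; exact mem_P.2 h3
      · right; simp
    · intro hz
      rcases hz with hz | hz
      · have hz0 : 0 ≤ z := by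
          by_contra hcon
          push Not at hcon
          unfold P at hz
          rw [Set.mem_ofPred_eq] at hz
          have h3 : 0 ≤ ((a : ℤ) * z) % b := Int.emod_nonneg _ (by exact_mod_cast hb)
          have h4 : (c : ℤ) * z < 0 := mul_neg_of_pos_of_neg (by exact_mod_cast Nat.pos_of_ne_zero hc) hcon
          have h5 : (0 : ℤ) ≤ d := by positivity
          linarith
        lift z to ℕ using hz0
        rw [mem_P] at hz
        refine ⟨z, ?_, rfl⟩
        by_cases hzN : z < N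
        · rcases h2 z hzN with h3 | h3 | h3
          · rw [h3]; exact (AddSubmonoid.closure _).zero_mem
          · exact absurd hz h3
          · exact reach_sub _ _ _ h3
        · exact win_all h.1 hne hN z (by omega)
      · rw [Set.mem_singleton_iff] at hz
        exact ⟨0, (AddSubmonoid.closure _).zero_mem, by simpa using hz.symm⟩

/-- the bound for the search -/
def Bd (M : ℕ) : ℕ := 4 * M.factorial * (M + 2) ^ 2

lemma key_bdd {l : List ℕ} (h : Legal l) {N : ℕ} (hcpm : ∃ a b c d, Chk l N a b c d) :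
    ∃ a b c d, Chk l N a b c d ∧ a ≤ Bd (N + l.sum) ∧ b ≤ Bd (N + l.sum) ∧ c ≤ Bd (N + l.sum) ∧
      d ≤ Bd (N + l.sum) := by
  have hne : l ≠ [] := ((legal_iff l).1 h).2.1
  obtain ⟨a, b, c, d, hb, hc, h1, h2⟩ := hcpm
  obtain ⟨a', b', c', d', hb', hc', h1', h2', ha1, hb1, hc1, hd1⟩ :=
    bound (N + l.sum) {x | x ∈ l} {y | y < N ∧ y ≠ 0 ∧ y ∉ reach y l}
      (fun x hx => ⟨h.1 x hx, by have := List.le_sum_of_mem hx; omega⟩)
      (List.exists_mem_of_ne_nil l hne)
      (fun y hy => ⟨Nat.pos_of_ne_zero hy.2.1, by have := hy.1; omega⟩)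
      ⟨a, b, c, d, hb, hc, fun x hx => h1 x hx, fun y hy hyP => by
        rcases h2 y hy.1 with h3 | h3 | h3
        · exact hy.2.1 h3
        · exact h3 hyP
        · exact hy.2.2 h3⟩
  refine ⟨a', b', c', d', ⟨hb', hc', h1', ?_⟩, ha1, hb1, hc1, hd1⟩
  intro y hy
  by_cases hy0 : y = 0
  · left; exact hy0
  · by_cases hyr : y ∈ reach y l
    · right; right; exact hyr
    · right; left; exact h2' y ⟨hy, hy0, hyr⟩

/-! ### Computability -/

section comp

variable {α : Type*} [Primcodable α]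

lemma inP_prim {f1 f2 f3 f4 f5 : α → ℕ} (h1 : Primrec f1) (h2 : Primrec f2) (h3 : Primrec f3)
    (h4 : Primrec f4) (h5 : Primrec f5) :
    PrimrecPred (fun x => inP (f1 x) (f2 x) (f3 x) (f4 x) (f5 x)) := by
  unfold inP
  exact Primrec.nat_le.comp
    (Primrec.nat_add.comp (Primrec.nat_mod.comp (Primrec.nat_mul.comp h1 h5) h2) h4)
    (Primrec.nat_mul.comp h3 h5)

lemma forall_lt' {R : ℕ → α → Prop} (hR : PrimrecRel R) :
    PrimrecRel (fun (n : ℕ) (a : α) => ∀ x < n, R x a) :=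
  ((PrimrecRel.forall_mem_list hR).comp (Primrec.list_range.comp Primrec.fst) Primrec.snd).of_eq
    (by simp)

lemma reach_prim : Primrec₂ reach := by
  unfold Primrec₂ reach
  refine Primrec.list_foldr (f := fun p : ℕ × List ℕ => p.2) (g := fun _ => [0])
    (h := fun (p : ℕ × List ℕ) (q : ℕ × List ℕ) => q.2.flatMap fun s =>
      (List.range (p.1 + 1)).map fun k => s + k * q.1) Primrec.snd (Primrec.const _) ?_
  unfold Primrec₂
  refine Primrec.list_flatMap (f := fun w : (ℕ × List ℕ) × (ℕ × List ℕ) => w.2.2)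
    (g := fun (w : (ℕ × List ℕ) × (ℕ × List ℕ)) (s : ℕ) =>
      (List.range (w.1.1 + 1)).map fun k => s + k * w.2.1)
    (Primrec.snd.comp Primrec.snd) ?_
  unfold Primrec₂
  refine Primrec.list_map (f := fun w : ((ℕ × List ℕ) × (ℕ × List ℕ)) × ℕ => List.range (w.1.1.1 + 1))
    (g := fun (w : ((ℕ × List ℕ) × (ℕ × List ℕ)) × ℕ) (k : ℕ) => w.2 + k * w.1.2.1)
    (Primrec.list_range.comp (Primrec.succ.comp (Primrec.fst.comp (Primrec.fst.comp Primrec.fst)))) ?_
  unfold Primrec₂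
  exact Primrec.nat_add.comp (Primrec.snd.comp Primrec.fst)
    (Primrec.nat_mul.comp Primrec.snd
      (Primrec.fst.comp (Primrec.snd.comp (Primrec.fst.comp Primrec.fst))))

lemma mem_prim : PrimrecRel (fun (L : List ℕ) (b : ℕ) => b ∈ L) := by
  have h : PrimrecRel (fun (L : List ℕ) (b : ℕ) => ∃ a ∈ L, a = b) :=
    PrimrecRel.exists_mem_list Primrec.eq
  exact h.of_eq fun L b => by simp

lemma sum_prim : Primrec (fun l : List ℕ => l.sum) := by
  have h : Primrec (fun l : List ℕ => l.foldr (fun a s => a + s) 0) :=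
    Primrec.list_foldr (h := fun (_ : List ℕ) (q : ℕ × ℕ) => q.1 + q.2) Primrec.id (Primrec.const 0)
      (Primrec.nat_add.comp (Primrec.fst.comp Primrec.snd) (Primrec.snd.comp Primrec.snd))
  exact h.of_eq fun l => by rw [List.sum_eq_foldr]

lemma fact_prim : Primrec Nat.factorial := by
  have h : Primrec (Nat.rec 1 (fun n ih => (n + 1) * ih) : ℕ → ℕ) :=
    Primrec.nat_rec₁ 1 (Primrec.nat_mul.comp (Primrec.succ.comp Primrec.fst) Primrec.snd)
  refine h.of_eq fun n => ?_
  induction n with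
  | zero => rfl
  | succ n ih => simp only [Nat.factorial_succ, ← ih]

lemma Bd_prim : Primrec Bd := by
  unfold Bd
  have h2 : Primrec (fun M : ℕ => (M + 2) ^ 2) := by
    have : Primrec (fun M : ℕ => (M + 2) * (M + 2)) :=
      Primrec.nat_mul.comp (Primrec.nat_add.comp Primrec.id (Primrec.const 2))
        (Primrec.nat_add.comp Primrec.id (Primrec.const 2))
    exact this.of_eq fun M => by ring
  exact Primrec.nat_mul.comp (Primrec.nat_mul.comp (Primrec.const 4) fact_prim) h2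

lemma legal_prim : PrimrecPred Legal := by
  have h1 : PrimrecPred (fun l : List ℕ => ∀ x ∈ l, 0 < x) :=
    PrimrecPred.forall_mem_list (Primrec.nat_lt.comp (Primrec.const 0) Primrec.id)
  have h2 : PrimrecPred (fun l : List ℕ => l ≠ []) :=
    (Primrec.eq.comp Primrec.id (Primrec.const [])).not
  have h3 : PrimrecRel (fun (l : List ℕ) (k : ℕ) => ∀ x ∈ l, x % k = 0) :=
    PrimrecRel.forall_mem_list (R := fun x k : ℕ => x % k = 0)
      (Primrec.eq.comp (Primrec.nat_mod.comp Primrec.fst Primrec.snd) (Primrec.const 0))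
  have h4 : PrimrecRel (fun (k : ℕ) (l : List ℕ) => (¬ ∀ x ∈ l, x % k = 0) ∨ k = 1) :=
    PrimrecPred.or (h3.comp Primrec.snd Primrec.fst).not
      (Primrec.eq.comp Primrec.fst (Primrec.const 1))
  have h5 : PrimrecRel (fun (n : ℕ) (l : List ℕ) => ∀ k < n, (¬ ∀ x ∈ l, x % k = 0) ∨ k = 1) :=
    forall_lt' h4
  have h6 : PrimrecPred (fun l : List ℕ => ∀ k < l.sum + 1, (¬ ∀ x ∈ l, x % k = 0) ∨ k = 1) :=
    h5.comp (Primrec.succ.comp sum_prim) Primrec.id
  have h7 : PrimrecPred Legal' := h1.and (h2.and h6)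
  exact h7.of_eq fun l => (legal_iff l).symm

lemma win_prim : PrimrecRel Win := by
  have h1 : PrimrecRel (fun (i : ℕ) (w : List ℕ × ℕ) => w.2 + i ∈ reach (w.2 + i) w.1) :=
    mem_prim.comp (reach_prim.comp (Primrec.nat_add.comp (Primrec.snd.comp Primrec.snd) Primrec.fst)
      (Primrec.fst.comp Primrec.snd)) (Primrec.nat_add.comp (Primrec.snd.comp Primrec.snd) Primrec.fst)
  exact (forall_lt' h1).comp (Primrec.list_headI.comp Primrec.fst) Primrec.id

/-- decoding of a quadruple -/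
def dec (e : ℕ) : ℕ × ℕ × ℕ × ℕ :=
  (e.unpair.1.unpair.1, e.unpair.1.unpair.2, e.unpair.2.unpair.1, e.unpair.2.unpair.2)

def Chk' (l : List ℕ) (N e : ℕ) : Prop :=
  Chk l N e.unpair.1.unpair.1 e.unpair.1.unpair.2 e.unpair.2.unpair.1 e.unpair.2.unpair.2

lemma chk_prim : PrimrecPred (fun w : ℕ × (List ℕ × ℕ) => Chk' w.2.1 w.2.2 w.1) := by
  have u1 : Primrec (fun e : ℕ => e.unpair.1.unpair.1) :=
    Primrec.fst.comp (Primrec.unpair.comp (Primrec.fst.comp Primrec.unpair))
  have u2 : Primrec (fun e : ℕ => e.unpair.1.unpair.2) :=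
    Primrec.snd.comp (Primrec.unpair.comp (Primrec.fst.comp Primrec.unpair))
  have u3 : Primrec (fun e : ℕ => e.unpair.2.unpair.1) :=
    Primrec.fst.comp (Primrec.unpair.comp (Primrec.snd.comp Primrec.unpair))
  have u4 : Primrec (fun e : ℕ => e.unpair.2.unpair.2) :=
    Primrec.snd.comp (Primrec.unpair.comp (Primrec.snd.comp Primrec.unpair))
  have h1 : PrimrecPred (fun w : ℕ × (List ℕ × ℕ) => w.1.unpair.1.unpair.2 ≠ 0) :=
    (Primrec.eq.comp (u2.comp Primrec.fst) (Primrec.const 0)).not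
  have h2 : PrimrecPred (fun w : ℕ × (List ℕ × ℕ) => w.1.unpair.2.unpair.1 ≠ 0) :=
    (Primrec.eq.comp (u3.comp Primrec.fst) (Primrec.const 0)).not
  have h3 : PrimrecRel (fun (x : ℕ) (e : ℕ) => inP e.unpair.1.unpair.1 e.unpair.1.unpair.2
      e.unpair.2.unpair.1 e.unpair.2.unpair.2 x) :=
    inP_prim (u1.comp Primrec.snd) (u2.comp Primrec.snd) (u3.comp Primrec.snd)
      (u4.comp Primrec.snd) Primrec.fst
  have h4 : PrimrecPred (fun w : ℕ × (List ℕ × ℕ) => ∀ x ∈ w.2.1,
      inP w.1.unpair.1.unpair.1 w.1.unpair.1.unpair.2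
      w.1.unpair.2.unpair.1 w.1.unpair.2.unpair.2 x) :=
    (PrimrecRel.forall_mem_list h3).comp (Primrec.fst.comp Primrec.snd) Primrec.fst
  have h5 : PrimrecRel (fun (y : ℕ) (w : ℕ × (List ℕ × ℕ)) => y = 0 ∨
      ¬ inP w.1.unpair.1.unpair.1 w.1.unpair.1.unpair.2
      w.1.unpair.2.unpair.1 w.1.unpair.2.unpair.2 y ∨ y ∈ reach y w.2.1) := by
    refine PrimrecPred.or (Primrec.eq.comp Primrec.fst (Primrec.const 0)) (PrimrecPred.or ?_ ?_)
    · exact (h3.comp Primrec.fst (Primrec.fst.comp Primrec.snd)).not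
    · exact mem_prim.comp (reach_prim.comp Primrec.fst
        (Primrec.fst.comp (Primrec.snd.comp Primrec.snd))) Primrec.fst
  have h6 : PrimrecPred (fun w : ℕ × (List ℕ × ℕ) => ∀ y < w.2.2, y = 0 ∨
      ¬ inP w.1.unpair.1.unpair.1 w.1.unpair.1.unpair.2
      w.1.unpair.2.unpair.1 w.1.unpair.2.unpair.2 y ∨ y ∈ reach y w.2.1) :=
    (forall_lt' h5).comp (Primrec.snd.comp Primrec.snd) Primrec.id
  exact h1.and (h2.and (h4.and h6))

/-- the bound for the code -/
def Ed (B : ℕ) : ℕ := ((B + 1) ^ 2 + 1) ^ 2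

lemma Ed_prim : Primrec Ed := by
  have sq : Primrec (fun M : ℕ => (M + 1) ^ 2) := by
    have : Primrec (fun M : ℕ => (M + 1) * (M + 1)) :=
      Primrec.nat_mul.comp Primrec.succ Primrec.succ
    exact this.of_eq fun M => by ring
  exact (sq.comp sq).of_eq fun M => rfl

lemma pair_lt {m n B : ℕ} (hm : m ≤ B) (hn : n ≤ B) : Nat.pair m n < (B + 1) ^ 2 := by
  refine (Nat.pair_lt_max_add_one_sq m n).trans_le ?_
  exact Nat.pow_le_pow_left (by have := max_le hm hn; omega) 2

lemma code {a b c d B : ℕ} (ha : a ≤ B) (hb : b ≤ B) (hc : c ≤ B) (hd : d ≤ B) :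
    Nat.pair (Nat.pair a b) (Nat.pair c d) < Ed B :=
  pair_lt (pair_lt ha hb).le (pair_lt hc hd).le

lemma all_iff {l : List ℕ} (h : Legal l) {N : ℕ} (hN : Win l N) :
    IsCPM (gen l) ↔ ∃ e < Ed (Bd (N + l.sum)), Chk' l N e := by
  rw [key h hN]
  constructor
  · intro h1
    obtain ⟨a, b, c, d, h2, ha, hb, hc, hd⟩ := key_bdd h h1
    refine ⟨_, code ha hb hc hd, ?_⟩
    unfold Chk'
    simpa only [Nat.unpair_pair] using h2
  · rintro ⟨e, -, he⟩
    exact ⟨_, _, _, _, he⟩

lemma re_exists {R : α → ℕ → Prop} (hR : PrimrecRel R) : REPred (fun a => ∃ n, R a n) := by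
  classical
  have h1 : Primrec₂ (fun a n => decide (R a n)) := hR.decide
  have h2 : Partrec₂ (fun (a : α) (n : ℕ) => (Part.some (decide (R a n)) : Part Bool)) :=
    h1.to_comp.partrec₂
  have h3 : Partrec (fun a : α => Nat.rfind (fun n => (Part.some (decide (R a n)) : Part Bool))) :=
    Partrec.rfind h2
  refine h3.dom_re.of_eq fun a => ?_
  refine (Nat.rfind_dom (p := fun n => (Part.some (decide (R a n)) : Part Bool))).trans ?_
  constructor
  · rintro ⟨n, hn, -⟩
    exact ⟨n, by simpa using hn⟩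
  · rintro ⟨n, hn⟩
    exact ⟨n, by simpa using hn, fun _ => trivial⟩

end comp

lemma R1_prim : PrimrecRel (fun (l : List ℕ) (m : ℕ) =>
    Legal l ∧ Win l m.unpair.1 ∧ Chk' l m.unpair.1 m.unpair.2) := by
  refine PrimrecPred.and (legal_prim.comp Primrec.fst) (PrimrecPred.and ?_ ?_)
  · exact win_prim.comp Primrec.fst (Primrec.fst.comp (Primrec.unpair.comp Primrec.snd))
  · have h : Primrec (fun w : List ℕ × ℕ => ((w.2.unpair.2, (w.1, w.2.unpair.1)) : ℕ × (List ℕ × ℕ))) :=
      Primrec.pair (Primrec.snd.comp (Primrec.unpair.comp Primrec.snd))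
        (Primrec.pair Primrec.fst (Primrec.fst.comp (Primrec.unpair.comp Primrec.snd)))
    exact chk_prim.comp h

lemma R2_prim : PrimrecRel (fun (l : List ℕ) (N : ℕ) =>
    ¬ Legal l ∨ (Win l N ∧ ∀ e < Ed (Bd (N + l.sum)), ¬ Chk' l N e)) := by
  refine PrimrecPred.or (legal_prim.comp Primrec.fst).not (PrimrecPred.and win_prim ?_)
  have h1 : PrimrecRel (fun (e : ℕ) (w : List ℕ × ℕ) => ¬ Chk' w.1 w.2 e) := chk_prim.not
  exact (forall_lt' h1).comp
    (Ed_prim.comp (Bd_prim.comp (Primrec.nat_add.comp Primrec.snd (sum_prim.comp Primrec.fst))))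
    Primrec.id

theorem main_comp : ComputablePred (fun l : List ℕ => Legal l ∧ IsCPM (gen l)) := by
  classical
  rw [ComputablePred.computable_iff_re_compl_re']
  constructor
  · refine (re_exists R1_prim).of_eq fun l => ?_
    constructor
    · rintro ⟨m, h1, h2, h3⟩
      exact ⟨h1, (key h1 h2).2 ⟨_, _, _, _, h3⟩⟩
    · rintro ⟨h1, h2⟩
      obtain ⟨N, hN⟩ := exists_win h1
      obtain ⟨e, -, he⟩ := (all_iff h1 hN).1 h2
      exact ⟨Nat.pair N e, h1, by simpa using hN, by simpa using he⟩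
  · refine (re_exists R2_prim).of_eq fun l => ?_
    constructor
    · rintro ⟨N, h1 | ⟨h1, h2⟩⟩ ⟨h3, h4⟩
      · exact h1 h3
      · obtain ⟨e, he, he'⟩ := (all_iff h3 h1).1 h4
        exact h2 e he he'
    · intro h
      by_cases h1 : Legal l
      · obtain ⟨N, hN⟩ := exists_win h1
        refine ⟨N, Or.inr ⟨hN, fun e he hc => h ⟨h1, (all_iff h1 hN).2 ⟨e, he, hc⟩⟩⟩⟩
      · exact ⟨0, Or.inl h1⟩

/-- There is an algorithm that, given a finite list of positive integers with greatest common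
divisor `1`, decides whether the numerical semigroup generated by the list is contracted
proportionally modular. -/
theorem result : ∃ f : List ℕ → Bool, Computable f ∧
    ∀ l : List ℕ, (∀ x ∈ l, 0 < x) → l.foldr Nat.gcd 0 = 1 →
      (f l = true ↔ IsCPM (gen l)) := by
  obtain ⟨hd, hf⟩ := main_comp
  refine ⟨fun l => decide (Legal l ∧ IsCPM (gen l)), hf, ?_⟩
  intro l h1 h2
  simp only [decide_eq_true_eq]
  exact ⟨fun h => h.2, fun h => ⟨⟨h1, h2⟩, h⟩⟩

end Pool.Agent.Results.MP_bd8ab5_nt.RecognitionDecidable
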